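import Pool.Agent.Y142.ZI.Stm
import Pool.Agent.Y331.ZD.Krq

/-!
Project Y142-ZI, task CLU: clusters of roots of polynomials close to `∏ ((X - b_j) ^ (m_j) - c_j)`
(helper230, for project OI of helper282).
-/

set_option autoImplicit false

open Polynomial Filter Topology
open Pool.Agent.Y142.ZI
open Pool.Agent.Y331.ZD (um_add um_sub ev_small norm_inv' root_aut)

namespace Pool.Agent.Q230.OI.CLU

section ab

variable {L : Type} [NormedField L] [IsUltrametricDist L]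

lemma add_left' {x y : L} (h : ‖y‖ < ‖x‖) : ‖x + y‖ = ‖x‖ := by
  rw [IsUltrametricDist.norm_add_eq_max_of_norm_ne_norm h.ne', max_eq_left h.le]

lemma sub_left' {x y : L} (h : ‖y‖ < ‖x‖) : ‖x - y‖ = ‖x‖ := by
  rw [sub_eq_add_neg]
  exact add_left' (by rwa [norm_neg])

omit [IsUltrametricDist L] in
lemma fac_monic (b c : L) {m : ℕ} (hm : 0 < m) : ((X - C b) ^ m - C c : L[X]).Monic := by
  apply ((monic_X_sub_C b).pow m).sub_of_left
  refine degree_C_le.trans_lt ?_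
  rw [degree_pow, degree_X_sub_C, nsmul_eq_mul, mul_one]
  exact_mod_cast hm

omit [IsUltrametricDist L] in
lemma fac_deg (b c : L) (m : ℕ) : ((X - C b) ^ m - C c : L[X]).natDegree = m := by
  rw [natDegree_sub_C, natDegree_pow, natDegree_X_sub_C, mul_one]

lemma prod_lt_one_aux (s : Multiset ℝ) : (∀ x ∈ s, 0 ≤ x ∧ x < 1) → 0 ≤ s.prod ∧ s.prod ≤ 1 := by
  induction s using Multiset.induction_on with
  | empty => intro _; simp
  | cons a s ih =>
    intro h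
    obtain ⟨h1, h2⟩ := ih fun x hx => h x (Multiset.mem_cons_of_mem hx)
    obtain ⟨h3, h4⟩ := h a (Multiset.mem_cons_self a s)
    rw [Multiset.prod_cons]
    exact ⟨mul_nonneg h3 h1, mul_le_one₀ h4.le h1 h2⟩

lemma prod_lt_one_of (s : Multiset ℝ) (hs : s ≠ 0) (h : ∀ x ∈ s, 0 ≤ x ∧ x < 1) : s.prod < 1 := by
  obtain ⟨a, ha⟩ := Multiset.exists_mem_of_ne_zero hs
  obtain ⟨t, rfl⟩ := Multiset.exists_cons_of_mem ha
  obtain ⟨h1, h2⟩ := prod_lt_one_aux t fun x hx => h x (Multiset.mem_cons_of_mem hx)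
  obtain ⟨h3, h4⟩ := h a ha
  rw [Multiset.prod_cons]
  calc a * t.prod ≤ a * 1 := mul_le_mul_of_nonneg_left h2 h3
    _ < 1 := by rwa [mul_one]

omit [IsUltrametricDist L] in
lemma norm_ms (s : Multiset L) (f : L → L) : ‖(s.map f).prod‖ = (s.map fun r => ‖f r‖).prod := by
  induction s using Multiset.induction_on with
  | empty => simp
  | cons a s ih => simp only [Multiset.map_cons, Multiset.prod_cons, norm_mul, ih]

variable {J : Type} [Fintype J] {b c : J → L} {m : J → ℕ} {q ε : ℝ}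

/-- the model -/
noncomputable def P0 (b c : J → L) (m : J → ℕ) : L[X] := ∏ j, ((X - C (b j)) ^ m j - C (c j))

omit [IsUltrametricDist L] in
lemma eval_P0 (t : L) : ‖(P0 b c m).eval t‖ = ∏ j, ‖(t - b j) ^ m j - c j‖ := by
  unfold P0
  rw [eval_prod, norm_prod]
  simp

/-- the hypotheses -/
structure Hyp (b c : J → L) (m : J → ℕ) (q ε : ℝ) (P : L[X]) : Prop where
  hb : ∀ j, ‖b j‖ ≤ 1
  hbb : ∀ i j, i ≠ j → ‖b i - b j‖ = 1
  hm : ∀ j, 0 < m j
  hc : ∀ j, ‖c j‖ = q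
  q0 : 0 < q
  q1 : q < 1
  e0 : 0 ≤ ε
  eq : ε < q
  mon : P.Monic
  deg : P.natDegree = ∑ j, m j
  cl : ∀ k, ‖(P - P0 b c m).coeff k‖ ≤ ε

variable {P : L[X]}

omit [IsUltrametricDist L] in
lemma nd (H : Hyp b c m q ε P) : (P - P0 b c m).natDegree ≤ ∑ j, m j := by
  refine (natDegree_sub_le _ _).trans ?_
  rw [H.deg]
  refine max_le le_rfl ?_
  unfold P0
  rw [natDegree_prod_of_monic _ _ fun j _ => fac_monic _ _ (H.hm j)]
  exact (Finset.sum_congr rfl fun j _ => fac_deg _ _ _).le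

lemma diff_le (H : Hyp b c m q ε P) {t : L} (ht : ‖t‖ ≤ 1) :
    ‖P.eval t - (P0 b c m).eval t‖ ≤ ε := by
  have h := ev_small H.e0 le_rfl H.cl (nd H) ht
  rwa [one_pow, mul_one, eval_sub] at h

/-- where the model is larger than the error, the value has the same norm -/
lemma ev_eq (H : Hyp b c m q ε P) {t : L} (ht : ‖t‖ ≤ 1) (h : ε < ‖(P0 b c m).eval t‖) :
    ‖P.eval t‖ = ‖(P0 b c m).eval t‖ := by
  have h1 : P.eval t = (P0 b c m).eval t + (P.eval t - (P0 b c m).eval t) := by ring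
  rw [h1]
  exact add_left' ((diff_le H ht).trans_lt h)

lemma root_le (H : Hyp b c m q ε P) {r : L} (hr : P.eval r = 0) : ‖r‖ ≤ 1 := by
  by_contra hcon
  push Not at hcon
  have h1 : ‖(P0 b c m).eval r‖ = ‖r‖ ^ ∑ j, m j := by
    rw [eval_P0, ← Finset.prod_pow_eq_pow_sum]
    refine Finset.prod_congr rfl fun j _ => ?_
    have h2 : ‖r - b j‖ = ‖r‖ := sub_left' ((H.hb j).trans_lt hcon)
    have h3 : ‖(r - b j) ^ m j‖ = ‖r‖ ^ m j := by rw [norm_pow, h2]
    rw [sub_left', h3]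
    rw [h3, H.hc j]
    exact H.q1.trans_le (one_le_pow₀ hcon.le)
  have h2 := ev_small H.e0 hcon.le H.cl (nd H) (le_refl ‖r‖)
  rw [eval_sub, hr, zero_sub, norm_neg, h1] at h2
  have h3 : 0 < ‖r‖ ^ ∑ j, m j := by positivity
  have h4 : ε < 1 := H.eq.trans H.q1
  nlinarith

lemma root_near (H : Hyp b c m q ε P) {r : L} (hr : P.eval r = 0) : ∃ j, ‖r - b j‖ < 1 := by
  by_contra hcon
  push Not at hcon
  have h1 : 1 ≤ ‖(P0 b c m).eval r‖ := by
    rw [eval_P0]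
    refine Finset.prod_induction _ (fun x : ℝ => 1 ≤ x)
      (fun x y hx hy => one_le_mul_of_one_le_of_one_le hx hy) le_rfl fun j _ => ?_
    have h2 : 1 ≤ ‖(r - b j) ^ m j‖ := by
      rw [norm_pow]
      exact one_le_pow₀ (hcon j)
    rw [sub_left']
    · exact h2
    · rw [H.hc j]
      exact H.q1.trans_le h2
  have h2 := diff_le H (root_le H hr)
  rw [hr, zero_sub, norm_neg] at h2
  have h4 : ε < 1 := H.eq.trans H.q1
  linarith

lemma other (H : Hyp b c m q ε P) {t : L} {i j : J} (hij : i ≠ j) (ht : ‖t - b j‖ < 1) :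
    ‖t - b i‖ = 1 := by
  have h1 : t - b i = (b j - b i) + (t - b j) := by ring
  rw [h1, add_left', H.hbb j i hij.symm]
  rwa [H.hbb j i hij.symm]

lemma near_le (H : Hyp b c m q ε P) {t : L} {j : J} (ht : ‖t - b j‖ < 1) : ‖t‖ ≤ 1 := by
  have h1 : t = (t - b j) + b j := by ring
  rw [h1]
  exact (IsUltrametricDist.norm_add_le_max _ _).trans (max_le ht.le (H.hb j))

lemma eval_near (H : Hyp b c m q ε P) {t : L} {j : J} (ht : ‖t - b j‖ < 1) :
    ‖(P0 b c m).eval t‖ = ‖(t - b j) ^ m j - c j‖ := by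
  rw [eval_P0]
  refine Finset.prod_eq_single j (fun i _ hij => ?_) (by simp)
  have h1 : ‖(t - b i) ^ m i‖ = 1 := by rw [norm_pow, other H hij ht, one_pow]
  rw [sub_left', h1]
  rw [h1, H.hc i]
  exact H.q1

open Classical in
/-- the roots near `b j` -/
noncomputable def cls (P : L[X]) (b : J → L) (j : J) : Multiset L :=
  P.roots.filter fun r => ‖r - b j‖ < 1

omit [IsUltrametricDist L] in
lemma mem_cls (H : Hyp b c m q ε P) {j : J} {r : L} :
    r ∈ cls P b j ↔ P.eval r = 0 ∧ ‖r - b j‖ < 1 := by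
  unfold cls
  rw [Multiset.mem_filter, mem_roots H.mon.ne_zero, IsRoot]

variable [IsAlgClosed L]

lemma eval_cls (H : Hyp b c m q ε P) {t : L} {j : J} (ht : ‖t - b j‖ < 1) :
    ‖P.eval t‖ = ((cls P b j).map fun r => ‖t - r‖).prod := by
  classical
  have h1 : P.eval t = (P.roots.map fun r => t - r).prod :=
    (IsAlgClosed.splits P).eval_eq_prod_roots_of_monic H.mon t
  rw [h1, norm_ms]
  have h2 := Multiset.filter_add_not (fun r => ‖r - b j‖ < 1) P.roots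
  conv_lhs => rw [← h2]
  rw [Multiset.map_add, Multiset.prod_add]
  have h3 : ((P.roots.filter fun r => ¬ ‖r - b j‖ < 1).map fun r => ‖t - r‖).prod = 1 := by
    refine Multiset.prod_eq_one fun x hx => ?_
    obtain ⟨r, hr, rfl⟩ := Multiset.mem_map.1 hx
    rw [Multiset.mem_filter, mem_roots H.mon.ne_zero, IsRoot] at hr
    obtain ⟨i, hi⟩ := root_near H hr.1
    have hij : j ≠ i := by
      rintro rfl
      exact hr.2 hi
    have h4 : ‖b j - r‖ = 1 := by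
      rw [norm_sub_rev]
      exact other H hij hi
    have h5 : t - r = (b j - r) + (t - b j) := by ring
    rw [h5, add_left', h4]
    rwa [h4]
  rw [h3, mul_one]
  unfold cls
  congr

lemma cls_card (H : Hyp b c m q ε P) (j : J) : (cls P b j).card = m j := by
  classical
  have h1 : ∀ᶠ M : ℕ in atTop, ∀ r ∈ (cls P b j).toFinset, ‖r - b j‖ ^ M < q := by
    rw [Filter.eventually_all_finset]
    intro r hr
    rw [Multiset.mem_toFinset, mem_cls H] at hr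
    exact (tendsto_pow_atTop_nhds_zero_of_lt_one (norm_nonneg _) hr.2).eventually_lt_const H.q0
  obtain ⟨M, hM1, hM2⟩ := (h1.and (eventually_gt_atTop (m j))).exists
  have hM0 : 0 < M := by omega
  obtain ⟨ϖ, hϖ⟩ := IsAlgClosed.exists_pow_nat_eq (c j) hM0
  have hn : ‖ϖ‖ ^ M = q := by rw [← norm_pow, hϖ, H.hc]
  have hϖ1 : ‖ϖ‖ < 1 := by
    by_contra hcon
    push Not at hcon
    have := one_le_pow₀ hcon (n := M)
    rw [hn] at this
    linarith [H.q1]
  have hϖ0 : 0 < ‖ϖ‖ := by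
    rw [norm_pos_iff]
    rintro rfl
    rw [norm_zero, zero_pow hM0.ne'] at hn
    linarith [H.q0]
  have hr : ∀ r ∈ cls P b j, ‖r - b j‖ < ‖ϖ‖ := by
    intro r hr
    have := hM1 r (Multiset.mem_toFinset.2 hr)
    rw [← hn] at this
    exact lt_of_pow_lt_pow_left₀ M hϖ0.le this
  have hqm : q < ‖ϖ‖ ^ m j := by
    rw [← hn]
    exact pow_lt_pow_right_of_lt_one₀ hϖ0 hϖ1 hM2
  have ht : ‖(b j + ϖ) - b j‖ < 1 := by rwa [add_sub_cancel_left]
  have h2 : ‖(P0 b c m).eval (b j + ϖ)‖ = ‖ϖ‖ ^ m j := by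
    rw [eval_near H ht, add_sub_cancel_left, sub_left', norm_pow]
    rw [norm_pow, H.hc]
    exact hqm
  have h3 := ev_eq H (near_le H ht) (by rw [h2]; exact H.eq.trans hqm)
  rw [h2, eval_cls H ht] at h3
  have h4 : ((cls P b j).map fun r => ‖b j + ϖ - r‖) = (cls P b j).map fun _ => ‖ϖ‖ := by
    refine Multiset.map_congr rfl fun r hr' => ?_
    have h5 : b j + ϖ - r = ϖ - (r - b j) := by ring
    rw [h5]
    exact sub_left' (hr r hr')
  rw [h4, Multiset.map_const', Multiset.prod_replicate] at h3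
  exact pow_right_injective₀ hϖ0 hϖ1.ne h3

lemma cls_prod (H : Hyp b c m q ε P) (j : J) :
    ((cls P b j).map fun r => ‖b j - r‖).prod = q := by
  have ht : ‖b j - b j‖ < 1 := by simp
  rw [← eval_cls H ht]
  have h2 : ‖(P0 b c m).eval (b j)‖ = q := by
    rw [eval_near H ht, sub_self, zero_pow (H.hm j).ne', zero_sub, norm_neg, H.hc]
  rw [ev_eq H (H.hb j) (by rw [h2]; exact H.eq), h2]

end ab

variable {ℓ : ℕ} [hℓ : Fact ℓ.Prime]

lemma nm (x : ℚ_[ℓ]) : ‖algebraMap ℚ_[ℓ] (AlgebraicClosure ℚ_[ℓ]) x‖ = ‖x‖ :=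
  PadicAlgCl.norm_extends ℓ x

lemma unr_bot : Unr ℓ (⊥ : IntermediateField ℚ_[ℓ] (AlgebraicClosure ℚ_[ℓ])) := by
  intro x hx hx0
  obtain ⟨y, rfl⟩ := IntermediateField.mem_bot.1 hx
  have hy0 : y ≠ 0 := by
    rintro rfl
    exact hx0 (map_zero _)
  refine ⟨-y.valuation, ?_⟩
  rw [nm]
  exact Padic.norm_eq_zpow_neg_valuation hy0

section gal

variable {J : Type} [Fintype J] {b c : J → ℚ_[ℓ]} {m : J → ℕ} {ε : ℝ} {R : ℚ_[ℓ][X]}

/-- over an unramified field the cluster is the set of roots of the minimal polynomial -/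
lemma cls_eq (H : Hyp (fun j => algebraMap ℚ_[ℓ] (AlgebraicClosure ℚ_[ℓ]) (b j))
    (fun j => algebraMap ℚ_[ℓ] (AlgebraicClosure ℚ_[ℓ]) (c j)) m ((ℓ : ℝ)⁻¹) ε
    (R.map (algebraMap ℚ_[ℓ] (AlgebraicClosure ℚ_[ℓ]))))
    (F : IntermediateField ℚ_[ℓ] (AlgebraicClosure ℚ_[ℓ])) (hF : Unr ℓ F) (j : J)
    {r : AlgebraicClosure ℚ_[ℓ]}
    (hr : r ∈ cls (R.map (algebraMap ℚ_[ℓ] (AlgebraicClosure ℚ_[ℓ])))
      (fun j => algebraMap ℚ_[ℓ] (AlgebraicClosure ℚ_[ℓ]) (b j)) j) :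
    cls (R.map (algebraMap ℚ_[ℓ] (AlgebraicClosure ℚ_[ℓ])))
      (fun j => algebraMap ℚ_[ℓ] (AlgebraicClosure ℚ_[ℓ]) (b j)) j =
      ((minpoly F r).map (algebraMap F (AlgebraicClosure ℚ_[ℓ]))).roots := by
  classical
  have hint : IsIntegral F r := Algebra.IsIntegral.isIntegral r
  have hr' := (mem_cls H).1 hr
  have hne : R.map (algebraMap ℚ_[ℓ] (AlgebraicClosure ℚ_[ℓ])) ≠ 0 := H.mon.ne_zero
  -- the minimal polynomial divides
  have hdvd : (minpoly F r).map (algebraMap F (AlgebraicClosure ℚ_[ℓ])) ∣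
      R.map (algebraMap ℚ_[ℓ] (AlgebraicClosure ℚ_[ℓ])) := by
    have h1 : minpoly F r ∣ R.map (algebraMap ℚ_[ℓ] F) := by
      apply minpoly.dvd
      rw [aeval_map_algebraMap, aeval_def, ← eval_map]
      exact hr'.1
    have h2 := Polynomial.map_dvd (algebraMap F (AlgebraicClosure ℚ_[ℓ])) h1
    rwa [Polynomial.map_map, ← IsScalarTower.algebraMap_eq] at h2
  have hconj : ∀ s ∈ ((minpoly F r).map (algebraMap F (AlgebraicClosure ℚ_[ℓ]))).roots,
      ‖s - algebraMap ℚ_[ℓ] (AlgebraicClosure ℚ_[ℓ]) (b j)‖ =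
      ‖r - algebraMap ℚ_[ℓ] (AlgebraicClosure ℚ_[ℓ]) (b j)‖ := by
    intro s hs
    rw [mem_roots ((minpoly.monic hint).map _).ne_zero, IsRoot, eval_map, ← aeval_def] at hs
    have h1 : IsConjRoot F r s := by
      rw [isConjRoot_iff_aeval_eq_zero hint]
      exact hs
    have : Normal F (AlgebraicClosure ℚ_[ℓ]) := Normal.tower_top_of_normal ℚ_[ℓ] F _
    obtain ⟨σ, hσ⟩ := isConjRoot_iff_exists_algEquiv.1 h1
    have h2 : ‖(σ.restrictScalars ℚ_[ℓ]) (s - algebraMap ℚ_[ℓ] (AlgebraicClosure ℚ_[ℓ]) (b j))‖ =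
        ‖s - algebraMap ℚ_[ℓ] (AlgebraicClosure ℚ_[ℓ]) (b j)‖ := norm_inv' _ _
    rw [← h2, map_sub, AlgEquiv.commutes]
    congr 2
  set T := ((minpoly F r).map (algebraMap F (AlgebraicClosure ℚ_[ℓ]))).roots with hT
  set ρ := ‖r - algebraMap ℚ_[ℓ] (AlgebraicClosure ℚ_[ℓ]) (b j)‖ with hρ
  have hle : T ≤ cls (R.map (algebraMap ℚ_[ℓ] (AlgebraicClosure ℚ_[ℓ])))
      (fun j => algebraMap ℚ_[ℓ] (AlgebraicClosure ℚ_[ℓ]) (b j)) j := by
    unfold cls
    rw [Multiset.le_filter]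
    refine ⟨Polynomial.roots.le_of_dvd hne hdvd, fun s hs => ?_⟩
    rw [hconj s hs]
    exact hr'.2
  have hrT : r ∈ T := by
    rw [hT, mem_roots ((minpoly.monic hint).map _).ne_zero, IsRoot, eval_map, ← aeval_def]
    exact minpoly.aeval F r
  have hTc : 0 < T.card := Multiset.card_pos_iff_exists_mem.2 ⟨r, hrT⟩
  obtain ⟨U, hU⟩ := Multiset.le_iff_exists_add.1 hle
  have hprod := cls_prod H j
  have hpT : (T.map fun s => ‖algebraMap ℚ_[ℓ] (AlgebraicClosure ℚ_[ℓ]) (b j) - s‖).prod =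
      ρ ^ T.card := by
    have h4 : (T.map fun s => ‖algebraMap ℚ_[ℓ] (AlgebraicClosure ℚ_[ℓ]) (b j) - s‖) =
        T.map fun _ => ρ := by
      refine Multiset.map_congr rfl fun s hs => ?_
      rw [norm_sub_rev]
      exact hconj s hs
    rw [h4, Multiset.map_const', Multiset.prod_replicate]
  rw [hU, Multiset.map_add, Multiset.prod_add] at hprod
  have hℓ1 : (1 : ℝ) < ℓ := by exact_mod_cast (Fact.out : ℓ.Prime).one_lt
  have hℓ0 : (0 : ℝ) < ℓ := by linarith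
  have hinv0 : 0 < (ℓ : ℝ)⁻¹ := inv_pos.2 hℓ0
  rw [hpT] at hprod
  have hρ0 : 0 < ρ := by
    rcases (norm_nonneg (r - algebraMap ℚ_[ℓ] (AlgebraicClosure ℚ_[ℓ]) (b j))).eq_or_lt with h | h
    · exfalso
      rw [← hρ] at h
      rw [← h, zero_pow hTc.ne', zero_mul] at hprod
      linarith
    · exact h
  have hρ1 : ρ < 1 := hr'.2
  -- the value at `b j`
  have hval : ρ ^ T.card ≤ (ℓ : ℝ)⁻¹ := by
    have h1 : ((minpoly F r).map (algebraMap F (AlgebraicClosure ℚ_[ℓ]))).eval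
        (algebraMap ℚ_[ℓ] (AlgebraicClosure ℚ_[ℓ]) (b j)) =
        (T.map fun s => algebraMap ℚ_[ℓ] (AlgebraicClosure ℚ_[ℓ]) (b j) - s).prod :=
      (IsAlgClosed.splits _).eval_eq_prod_roots_of_monic ((minpoly.monic hint).map _) _
    have h2 : ((minpoly F r).map (algebraMap F (AlgebraicClosure ℚ_[ℓ]))).eval
        (algebraMap ℚ_[ℓ] (AlgebraicClosure ℚ_[ℓ]) (b j)) =
        algebraMap F (AlgebraicClosure ℚ_[ℓ]) ((minpoly F r).eval (algebraMap ℚ_[ℓ] F (b j))) := by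
      rw [IsScalarTower.algebraMap_apply ℚ_[ℓ] F (AlgebraicClosure ℚ_[ℓ]), eval_map,
        eval₂_at_apply]
    have h3 : ‖algebraMap F (AlgebraicClosure ℚ_[ℓ])
        ((minpoly F r).eval (algebraMap ℚ_[ℓ] F (b j)))‖ = ρ ^ T.card := by
      rw [← h2, h1, norm_ms, hpT]
    have h4 : algebraMap F (AlgebraicClosure ℚ_[ℓ])
        ((minpoly F r).eval (algebraMap ℚ_[ℓ] F (b j))) ≠ 0 := by
      rw [← norm_pos_iff, h3]
      positivity
    obtain ⟨k, hk⟩ := hF _ ((minpoly F r).eval (algebraMap ℚ_[ℓ] F (b j))).2 h4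
    have h5 : ρ ^ T.card = (ℓ : ℝ) ^ k := by rw [← h3]; exact hk
    have h6 : (ℓ : ℝ) ^ k < (ℓ : ℝ) ^ (0 : ℤ) := by
      rw [← h5, zpow_zero]
      exact pow_lt_one₀ hρ0.le hρ1 hTc.ne'
    have h7 : k < 0 := (zpow_lt_zpow_iff_right₀ hℓ1).1 h6
    rw [h5, ← zpow_neg_one]
    exact zpow_le_zpow_right₀ hℓ1.le (by omega)
  have hU0 : U = 0 := by
    by_contra hU0
    have h1 : (U.map fun s => ‖algebraMap ℚ_[ℓ] (AlgebraicClosure ℚ_[ℓ]) (b j) - s‖).prod < 1 := by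
      refine prod_lt_one_of _ (by simpa using hU0) fun x hx => ?_
      obtain ⟨s, hs, rfl⟩ := Multiset.mem_map.1 hx
      refine ⟨norm_nonneg _, ?_⟩
      rw [norm_sub_rev]
      have h2 : s ∈ cls (R.map (algebraMap ℚ_[ℓ] (AlgebraicClosure ℚ_[ℓ])))
          (fun j => algebraMap ℚ_[ℓ] (AlgebraicClosure ℚ_[ℓ]) (b j)) j := by
        rw [hU]
        exact Multiset.mem_add.2 (Or.inr hs)
      exact ((mem_cls H).1 h2).2
    have h2 : 0 < ρ ^ T.card := by positivity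
    nlinarith
  rw [hU, hU0, add_zero]

lemma min_nodup (F : IntermediateField ℚ_[ℓ] (AlgebraicClosure ℚ_[ℓ]))
    (r : AlgebraicClosure ℚ_[ℓ]) :
    ((minpoly F r).map (algebraMap F (AlgebraicClosure ℚ_[ℓ]))).roots.Nodup := by
  have hint : IsIntegral F r := Algebra.IsIntegral.isIntegral r
  exact nodup_roots ((minpoly.irreducible hint).separable.map)

end gal

/-- task CLU -/
theorem t : S_CLU := by
  classical
  intro ℓ _ J _ b c m hb hbb hm hc
  have hℓ1 : (1 : ℝ) < ℓ := by exact_mod_cast (Fact.out : ℓ.Prime).one_lt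
  have hℓ0 : (0 : ℝ) < ℓ := by linarith
  have hinv0 : 0 < (ℓ : ℝ)⁻¹ := inv_pos.2 hℓ0
  have hinv1 : (ℓ : ℝ)⁻¹ < 1 := inv_lt_one_of_one_lt₀ hℓ1
  refine ⟨(ℓ : ℝ)⁻¹ ^ 2, by positivity, fun R hR hdeg hcl => ?_⟩
  have H : Hyp (fun j => algebraMap ℚ_[ℓ] (AlgebraicClosure ℚ_[ℓ]) (b j))
      (fun j => algebraMap ℚ_[ℓ] (AlgebraicClosure ℚ_[ℓ]) (c j)) m ((ℓ : ℝ)⁻¹) ((ℓ : ℝ)⁻¹ ^ 2)
      (R.map (algebraMap ℚ_[ℓ] (AlgebraicClosure ℚ_[ℓ]))) := by
    refine ⟨fun j => ?_, fun i j hij => ?_, hm, fun j => ?_, hinv0, hinv1, by positivity, ?_,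
      hR.map _, ?_, fun k => ?_⟩
    · rw [nm]; exact hb j
    · rw [← map_sub, nm]; exact hbb i j hij
    · rw [nm]; exact hc j
    · nlinarith
    · rw [natDegree_map]; exact hdeg
    · have h1 : P0 (fun j => algebraMap ℚ_[ℓ] (AlgebraicClosure ℚ_[ℓ]) (b j))
          (fun j => algebraMap ℚ_[ℓ] (AlgebraicClosure ℚ_[ℓ]) (c j)) m =
          (∏ j, ((X - C (b j)) ^ m j - C (c j))).map
            (algebraMap ℚ_[ℓ] (AlgebraicClosure ℚ_[ℓ])) := by
        unfold P0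
        simp [Polynomial.map_prod]
      rw [h1, ← Polynomial.map_sub, coeff_map, nm]
      exact (hcl k).le
  have hev : ∀ r : AlgebraicClosure ℚ_[ℓ], aeval r R = 0 ↔
      (R.map (algebraMap ℚ_[ℓ] (AlgebraicClosure ℚ_[ℓ]))).eval r = 0 := by
    intro r
    rw [aeval_def, eval_map]
  have hcn : ∀ j, (cls (R.map (algebraMap ℚ_[ℓ] (AlgebraicClosure ℚ_[ℓ])))
      (fun j => algebraMap ℚ_[ℓ] (AlgebraicClosure ℚ_[ℓ]) (b j)) j).Nodup := by
    intro j
    have h1 : 0 < (cls (R.map (algebraMap ℚ_[ℓ] (AlgebraicClosure ℚ_[ℓ])))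
      (fun j => algebraMap ℚ_[ℓ] (AlgebraicClosure ℚ_[ℓ]) (b j)) j).card := by
      rw [cls_card H j]
      exact hm j
    obtain ⟨r, hr⟩ := Multiset.card_pos_iff_exists_mem.1 h1
    rw [cls_eq H ⊥ unr_bot j hr]
    exact min_nodup _ _
  have hset : ∀ j, {r : AlgebraicClosure ℚ_[ℓ] | aeval r R = 0 ∧
      ‖r - algebraMap ℚ_[ℓ] (AlgebraicClosure ℚ_[ℓ]) (b j)‖ < 1} =
      ((cls (R.map (algebraMap ℚ_[ℓ] (AlgebraicClosure ℚ_[ℓ])))
      (fun j => algebraMap ℚ_[ℓ] (AlgebraicClosure ℚ_[ℓ]) (b j)) j).toFinset :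
        Set (AlgebraicClosure ℚ_[ℓ])) := by
    intro j
    ext r
    rw [Finset.mem_coe, Multiset.mem_toFinset, mem_cls H, Set.mem_ofPred_eq, hev]
  refine ⟨?_, ?_, ?_, ?_⟩
  · -- separable
    refine (separable_map (algebraMap ℚ_[ℓ] (AlgebraicClosure ℚ_[ℓ]))).1 ?_
    rw [← nodup_roots_iff_of_splits H.mon.ne_zero (IsAlgClosed.splits _),
      Multiset.nodup_iff_count_le_one]
    intro r
    by_cases hr : r ∈ (R.map (algebraMap ℚ_[ℓ] (AlgebraicClosure ℚ_[ℓ]))).roots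
    · rw [mem_roots H.mon.ne_zero, IsRoot] at hr
      obtain ⟨j, hj⟩ := root_near H hr
      have h1 := Multiset.nodup_iff_count_le_one.1 (hcn j) r
      unfold cls at h1
      rwa [Multiset.count_filter, if_pos hj] at h1
    · rw [Multiset.count_eq_zero_of_notMem hr]
      exact zero_le_one
  · intro r hr
    rw [hev] at hr
    exact ⟨root_le H hr, root_near H hr⟩
  · intro j
    rw [hset j, Set.ncard_coe_finset, Multiset.toFinset_card_of_nodup (hcn j), cls_card H j]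
  · intro F hF j r s hr hs hrj hsj
    rw [hev] at hr hs
    have hr' := (mem_cls H (j := j)).2 ⟨hr, hrj⟩
    have hs' := (mem_cls H (j := j)).2 ⟨hs, hsj⟩
    rw [cls_eq H F hF j hr'] at hs'
    have hint : IsIntegral F r := Algebra.IsIntegral.isIntegral r
    rw [mem_roots ((minpoly.monic hint).map _).ne_zero, IsRoot, eval_map, ← aeval_def] at hs'
    have h1 : IsConjRoot F r s := by
      rw [isConjRoot_iff_aeval_eq_zero hint]
      exact hs'
    have : Normal F (AlgebraicClosure ℚ_[ℓ]) := Normal.tower_top_of_normal ℚ_[ℓ] F _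
    obtain ⟨σ, hσ⟩ := isConjRoot_iff_exists_algEquiv.1 h1
    exact ⟨σ⁻¹, by rw [← hσ]; exact σ.symm_apply_apply s⟩

end Pool.Agent.Q230.OI.CLU
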