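import Pool.Agent.TH125.Nod.Fft2

/-! # The first fundamental theorem for `sl` in low degree (combinatorial core; helper230)

Forms in `k` variables on `⊕ (V_i ⊕ V_i*)`, invariant under the products of the Lie algebras `sl (V_i)`, are
combinations of products of pairings if `k` is smaller than the dimensions of all `V_i`. -/

set_option autoImplicit false
set_option linter.unusedSectionVars false

open Finset Function
open Pool.Agent.TH125.Nod (blk mem_blk ext2 ext2_a ext2_b ext2_val update_ext2_a update_ext2_b
  update_ext2_val sum_split Sup gen Gen mul_Gen)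

namespace Pool.Agent.Q230.OI.FFTU

variable {K : Type} [Field K] {B : Type} [Fintype B] [DecidableEq B] {ι : Type} [DecidableEq ι]

/-- invariance under the maps `b ↦ jj b a`, `inv a ↦ - jj a (inv b)` -/
def InvU (κ : B → ι) (inv : B → B) (jj : B → K) {S : Type} [Fintype S] [DecidableEq S]
    (f : (S → B) → K) : Prop :=
  ∀ a b, κ a = κ b → a ≠ b → ∀ J : S → B,
    ∑ j, ((if J j = b then jj b * f (update J j a) else 0) -
      (if J j = inv a then jj a * f (update J j (inv b)) else 0)) = 0

/-- the pairing -/
def QU (inv : B → B) (jj : B → K) : Matrix B B K := Matrix.of fun x y => if y = inv x then jj x else 0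

/-- a new letter -/
def New (κ : B → ι) (inv : B → B) {S : Type} (i : ι) (R : S → B) (t : B) : Prop :=
  κ t = i ∧ ∀ x, R x ≠ t ∧ R x ≠ inv t

section
variable {κ : B → ι} {inv : B → B} {jj : B → K}

lemma new_exists (hii : ∀ x, inv (inv x) = x) (hne : ∀ x, κ (inv x) ≠ κ x) (i : ι) (U : Finset B)
    (hU : U.card < (blk κ i).card) : ∃ t, κ t = i ∧ ∀ y ∈ U, y ≠ t ∧ y ≠ inv t := by
  obtain ⟨t, ht, ht'⟩ := Finset.exists_mem_notMem_of_card_lt_card
    (s := U.image fun y => if κ y = i then y else inv y) (t := blk κ i) (card_image_le.trans_lt hU)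
  rw [mem_blk] at ht
  refine ⟨t, ht, fun y hy => ⟨?_, ?_⟩⟩
  · rintro rfl
    exact ht' (mem_image.2 ⟨y, hy, if_pos ht⟩)
  · intro h
    apply ht'
    refine mem_image.2 ⟨y, hy, ?_⟩
    rw [if_neg, h, hii]
    rw [h, ← ht]
    exact hne t

variable {S : Type} [Fintype S] [DecidableEq S] {a0 j : S} {f : (S → B) → K} {i : ι}

lemma indep (hii : ∀ x, inv (inv x) = x) (hne : ∀ x, κ (inv x) ≠ κ x) (hj : a0 ≠ j)
    (hf : InvU κ inv jj f) {R : {x // x ≠ a0 ∧ x ≠ j} → B}
    {t t' : B} (ht : New κ inv i R t) (ht' : New κ inv i R t') :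
    jj t' * f (ext2 a0 j t (inv t) R) = jj t * f (ext2 a0 j t' (inv t') R) := by
  by_cases htt : t = t'
  · rw [htt]
  have h := hf t t' (ht.1.trans ht'.1.symm) htt (ext2 a0 j t' (inv t) R)
  have hn1 : t' ≠ inv t := by
    intro h1
    apply hne t
    rw [← h1, ht.1, ht'.1]
  have hn2 : inv t ≠ t' := fun h1 => hn1 h1.symm
  rw [sum_split hj, ext2_a, ext2_b hj, if_pos rfl, if_neg hn1, if_neg hn2, if_pos rfl,
    update_ext2_a, update_ext2_b hj, sub_zero, zero_sub, Finset.sum_eq_zero, add_zero] at h
  · linear_combination h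
  · intro x _
    rw [ext2_val, if_neg (ht'.2 x).1, if_neg (ht.2 x).2, sub_zero]

open Classical in
/-- contraction -/
noncomputable def gU (κ : B → ι) (inv : B → B) (jj : B → K) (a0 j : S) (i : ι)
    (f : (S → B) → K) : ({x // x ≠ a0 ∧ x ≠ j} → B) → K :=
  fun R => if h : ∃ t, New κ inv i R t then
    (jj (Classical.choose h))⁻¹ *
      f (ext2 a0 j (Classical.choose h) (inv (Classical.choose h)) R) else 0

lemma gU_eq (hii : ∀ x, inv (inv x) = x) (hne : ∀ x, κ (inv x) ≠ κ x) (hjj : ∀ x, jj x ≠ 0)
    (hj : a0 ≠ j) (hf : InvU κ inv jj f) {R : {x // x ≠ a0 ∧ x ≠ j} → B}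
    {t : B} (ht : New κ inv i R t) :
    jj t * gU κ inv jj a0 j i f R = f (ext2 a0 j t (inv t) R) := by
  have h : ∃ t, New κ inv i R t := ⟨t, ht⟩
  have h1 := indep hii hne hj hf ht (Classical.choose_spec h)
  unfold gU
  rw [dif_pos h]
  have h2 := hjj (Classical.choose h)
  field_simp
  linear_combination -h1

lemma gU_sup {c : S → ι} (hf : Sup κ c f) :
    Sup κ (fun x : {x // x ≠ a0 ∧ x ≠ j} => c x.1) (gU κ inv jj a0 j i f) := by
  intro R hR
  unfold gU
  split_ifs with h
  · rw [hf, mul_zero]
    intro h1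
    apply hR
    intro x
    have := h1 x.1
    rwa [ext2_val] at this
  · rfl

lemma card_rest (hj : a0 ≠ j) : Fintype.card {x // x ≠ a0 ∧ x ≠ j} + 2 = Fintype.card S := by
  have h : (univ.filter fun x : S => x ≠ a0 ∧ x ≠ j) = (univ.erase a0).erase j := by
    ext x
    simp [and_comm]
  rw [Fintype.card_subtype, h, card_erase_of_mem (mem_erase.2 ⟨hj.symm, mem_univ _⟩),
    card_erase_of_mem (mem_univ _), card_univ]
  have : 1 < Fintype.card S := Fintype.one_lt_card_iff.2 ⟨a0, j, hj⟩
  omega

lemma gU_inv (hii : ∀ x, inv (inv x) = x) (hne : ∀ x, κ (inv x) ≠ κ x) (hjj : ∀ x, jj x ≠ 0)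
    (hj : a0 ≠ j) (hf : InvU κ inv jj f)
    (hcard : Fintype.card S < (blk κ i).card) : InvU κ inv jj (gU κ inv jj a0 j i f) := by
  classical
  intro a b hab hne' R
  obtain ⟨t, ht, htU⟩ := new_exists hii hne i (insert a (insert b (univ.image R))) (by
    have h1 := card_insert_le a (insert b (univ.image R))
    have h2 := card_insert_le b (univ.image R)
    have h3 : (univ.image R).card ≤ Fintype.card {x // x ≠ a0 ∧ x ≠ j} := card_image_le
    have h4 := card_rest hj
    omega)
  have hta := htU a (by simp)
  have htb := htU b (by simp)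
  have htR : ∀ x, R x ≠ t ∧ R x ≠ inv t := fun x => htU (R x) (by simp)
  have hia : ∀ y, y ≠ t ∧ y ≠ inv t → inv y ≠ t ∧ inv y ≠ inv t := by
    intro y hy
    refine ⟨fun h => hy.2 ?_, fun h => hy.1 ?_⟩
    · rw [← h, hii]
    · rw [← hii y, h, hii]
  have hN : ∀ (y : {x // x ≠ a0 ∧ x ≠ j}) (d : B), d ≠ t ∧ d ≠ inv t →
      New κ inv i (update R y d) t := by
    intro y d hd
    refine ⟨ht, fun x => ?_⟩
    by_cases hx : x = y
    · rw [hx, update_self]
      exact hd
    · rw [update_of_ne hx]
      exact htR x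
  have h := hf a b hab hne' (ext2 a0 j t (inv t) R)
  rw [sum_split hj, ext2_a, ext2_b hj, if_neg htb.1.symm, if_neg (fun h => (hia a hta).1 h.symm),
    if_neg (fun h => htb.2 h.symm), if_neg (fun h => (hia a hta).2 h.symm), sub_zero, zero_add,
    zero_add] at h
  have h2 : jj t * ∑ y, ((if R y = b then jj b * gU κ inv jj a0 j i f (update R y a) else 0) -
      (if R y = inv a then jj a * gU κ inv jj a0 j i f (update R y (inv b)) else 0)) = 0 := by
    refine Eq.trans ?_ h
    rw [mul_sum]
    refine sum_congr rfl fun y _ => ?_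
    rw [ext2_val, update_ext2_val, update_ext2_val, ← gU_eq hii hne hjj hj hf (hN y a hta),
      ← gU_eq hii hne hjj hj hf (hN y (inv b) (hia b htb))]
    split_ifs <;> ring
  exact (mul_eq_zero.1 h2).resolve_left (hjj t)

/-- the first fundamental theorem -/
theorem core (hii : ∀ x, inv (inv x) = x) (hne : ∀ x, κ (inv x) ≠ κ x) (hjj : ∀ x, jj x ≠ 0)
    (n : ℕ) (hn : ∀ i, n ≤ (blk κ i).card) (N : ℕ) : ∀ (S : Type) [Fintype S] [DecidableEq S]
    (c : S → ι) (f : (S → B) → K), Fintype.card S = N → N < n → Sup κ c f → InvU κ inv jj f →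
    f ∈ Gen (M := K) κ (QU inv jj) c := by
  classical
  induction N using Nat.strong_induction_on with
  | _ N ih =>
    intro S _ _ c f hN hNn hsup hinv
    rcases isEmpty_or_nonempty S with hS | ⟨⟨a0⟩⟩
    · refine Submodule.subset_span ⟨0, Equiv.equivOfIsEmpty _ _, f (fun j => (hS.false j).elim), ?_⟩
      funext J
      unfold gen
      rw [if_pos (fun j => (hS.false j).elim), Finset.univ_eq_empty, Finset.prod_empty, one_smul]
      congr 1
      funext j
      exact (hS.false j).elim
    · have hg : ∀ x ∈ univ.erase a0, gU κ inv jj a0 x (c a0) f ∈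
          Gen κ (QU inv jj) (fun y : {y // y ≠ a0 ∧ y ≠ x} => c y.1) := by
        intro x hx
        have hx' : a0 ≠ x := (Finset.mem_erase.1 hx).1.symm
        refine ih (Fintype.card {y // y ≠ a0 ∧ y ≠ x}) ?_ _ _ _ rfl ?_ (gU_sup hsup)
          (gU_inv hii hne hjj hx' hinv ?_)
        · rw [← hN]
          exact Fintype.card_subtype_lt (x := a0) (fun h => h.1 rfl)
        · have := card_rest hx'
          omega
        · rw [hN]
          exact hNn.trans_le (hn _)
      have hsum : ∑ x ∈ univ.erase a0, (fun J : S → B => if ∀ j, κ (J j) = c j then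
          QU inv jj (J a0) (J x) • gU κ inv jj a0 x (c a0) f (fun y => J y.1) else 0) ∈
          Gen κ (QU inv jj) c :=
        Submodule.sum_mem _ fun x hx => mul_Gen κ (QU inv jj) c (Finset.mem_erase.1 hx).1.symm
          (hg x hx)
      convert hsum using 1
      funext J
      rw [Finset.sum_apply]
      by_cases hJ : ∀ j, κ (J j) = c j
      · simp only [if_pos hJ]
        obtain ⟨t, ht, htU⟩ := new_exists hii hne (c a0) (univ.image J) (by
          have h3 : (univ.image J).card ≤ Fintype.card S := card_image_le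
          have := hn (c a0)
          omega)
        have htJ : ∀ x, J x ≠ t ∧ J x ≠ inv t := fun x => htU (J x) (by simp)
        have h := hinv (J a0) t (by rw [hJ a0, ht]) (htJ a0).1 (update J a0 t)
        have hti : t ≠ inv (J a0) := by
          intro h1
          apply hne (J a0)
          rw [← h1, ht, hJ a0]
        rw [← Finset.add_sum_erase univ _ (Finset.mem_univ a0), update_self, if_pos rfl,
          if_neg hti, sub_zero, update_idem, update_eq_self] at h
        have h2 : jj t * f J = jj t * ∑ x ∈ univ.erase a0,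
            QU inv jj (J a0) (J x) • gU κ inv jj a0 x (c a0) f (fun y => J y.1) := by
          rw [← eq_neg_iff_add_eq_zero] at h
          rw [h, mul_sum, ← Finset.sum_neg_distrib]
          refine sum_congr rfl fun x hx => ?_
          have hx' : a0 ≠ x := (Finset.mem_erase.1 hx).1.symm
          rw [update_of_ne hx'.symm, if_neg (htJ x).1, zero_sub, neg_neg]
          have hnew : New κ inv (c a0) (fun y : {y // y ≠ a0 ∧ y ≠ x} => J y.1) t :=
            ⟨ht, fun y => htJ y.1⟩
          have hext : update (update J a0 t) x (inv t) =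
              ext2 a0 x t (inv t) (fun y : {y // y ≠ a0 ∧ y ≠ x} => J y.1) := by
            funext y
            by_cases h1 : y = x
            · subst h1
              rw [update_self, ext2_b hx']
            · rw [update_of_ne h1]
              by_cases h2 : y = a0
              · subst h2
                rw [update_self, ext2_a]
              · rw [update_of_ne h2]
                exact (ext2_val t (inv t) (fun y : {y // y ≠ a0 ∧ y ≠ x} => J y.1)
                  ⟨y, h2, h1⟩).symm
          unfold QU
          rw [Matrix.of_apply, hext, ← gU_eq hii hne hjj hx' hinv hnew]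
          split_ifs
          · rw [smul_eq_mul]; ring
          · rw [zero_smul, mul_zero]
        exact mul_left_cancel₀ (hjj t) h2
      · simp only [if_neg hJ, Finset.sum_const_zero]
        exact hsup J hJ

end

end Pool.Agent.Q230.OI.FFTU
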