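import Pool.Agent.Y142.SU.Stm
import Pool.Agent.Y710.SV.Fftv
import Pool.Agent.Q230.OI.FFTU0

/-! # Task FFTU of the project Y142-SU (helper230, for project OI of helper282)

Frames and the last part are adapted from the file `Fftv` of Y710. -/

set_option autoImplicit false
set_option linter.unusedSectionVars false

open Matrix
open Pool.Agent.Y142.ZO (bil)
open Pool.Agent.Y142.SU (FromHerm SULie Herm S_FFTU)
open Pool.Agent.Y710.SV (idem prod_pairs bil_s sw sw_mulVec sw_lie typ sum_typ)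
open Pool.Agent.Y100.ZS (mate mate_mate mate_ne mate_e0 mate_e1)
open Pool.Agent.Y155.ZI (Tσ Tσ_apply bil_toBilin)
open Pool.Agent.TH125.Nod (blk mem_blk Sup gen Gen)

namespace Pool.Agent.Q230.OI.FFTU

section basics
variable {F : Type} [Field F] {N : ℕ} {J : Matrix (Fin N) (Fin N) F} {s : F}

theorem bil_nd (hdet : J.det ≠ 0) {a b : Fin N → F} (h : ∀ w, bil J w a = bil J w b) : a = b := by
  have hu : IsUnit J.det := isUnit_iff_ne_zero.2 hdet
  have h1 : J *ᵥ a = J *ᵥ b := by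
    funext i
    have := h (Pi.single i 1)
    unfold bil at this
    simpa using this
  have h2 := congrArg (fun x => J⁻¹ *ᵥ x) h1
  simpa [mulVec_mulVec, Matrix.nonsing_inv_mul _ hu] using h2

theorem bil_sum {ι : Type} (A : Finset ι) (x : Fin N → F) (f : ι → Fin N → F) :
    bil J x (∑ i ∈ A, f i) = ∑ i ∈ A, bil J x (f i) := by
  unfold bil
  rw [Matrix.mulVec_sum, dotProduct_sum]

theorem bil_sum_left {ι : Type} (A : Finset ι) (x : Fin N → F) (f : ι → Fin N → F) :
    bil J (∑ i ∈ A, f i) x = ∑ i ∈ A, bil J (f i) x := by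
  unfold bil
  rw [sum_dotProduct]

theorem bil_smul (c : F) (x y : Fin N → F) : bil J x (c • y) = c * bil J x y := by
  unfold bil; rw [mulVec_smul, dotProduct_smul, smul_eq_mul]

theorem bil_smul_left (c : F) (x y : Fin N → F) : bil J (c • x) y = c * bil J x y := by
  unfold bil; rw [smul_dotProduct, smul_eq_mul]

theorem bil_adj {A A' : Matrix (Fin N) (Fin N) F} (h : A'ᵀ * J = J * A) (x y : Fin N → F) :
    bil J x (A *ᵥ y) = bil J (A' *ᵥ x) y := by
  unfold bil
  rw [mulVec_mulVec, ← h, ← mulVec_mulVec, dotProduct_mulVec, vecMul_transpose]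

end basics

/-- a basis adapted to the coefficients -/
structure Frm {F : Type} [Field F] {N : ℕ} (J : Matrix (Fin N) (Fin N) F)
    (𝒞 : Subalgebra F (Matrix (Fin N) (Fin N) F)) (n : ℕ) (s : F) where
  T : Type
  fT : Fintype T
  dT : DecidableEq T
  E : T → Matrix (Fin N) (Fin N) F
  mem : ∀ t, E t ∈ 𝒞
  eig : ∀ A ∈ 𝒞, ∀ t, ∃ c : F, A * E t = c • E t
  D : T → T
  adj : ∀ t, (E (D t))ᵀ * J = J * E t
  S : Type
  fS : Fintype S
  dS : DecidableEq S
  κ : S → T
  iv : S → S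
  jj : S → F
  ii : ∀ x, iv (iv x) = x
  kne : ∀ x, κ (iv x) ≠ κ x
  kiv : ∀ x, κ (iv x) = D (κ x)
  jne : ∀ x, jj x ≠ 0
  jsym : ∀ x, jj (iv x) = s * jj x
  β : S → Fin N → F
  Eβ : ∀ t x, E t *ᵥ β x = if κ x = t then β x else 0
  co : S → (Fin N → F) → F
  full : ∀ v, v = ∑ x, co x v • β x
  pair : ∀ x y, bil J (β x) (β y) = if y = iv x then jj x else 0
  many : ∀ t, n ≤ (blk κ t).card

attribute [instance] Frm.fS Frm.dS Frm.fT Frm.dT

section ex

variable {F : Type} [Field F] {N : ℕ} {J : Matrix (Fin N) (Fin N) F}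
    {𝒞 : Subalgebra F (Matrix (Fin N) (Fin N) F)} {s : F}

theorem J_cancel (hdet : J.det ≠ 0) {A B : Matrix (Fin N) (Fin N) F} (h : J * A = J * B) :
    A = B := by
  have hu : IsUnit J.det := isUnit_iff_ne_zero.2 hdet
  have h2 := congrArg (fun x => J⁻¹ * x) h
  simpa [← Matrix.mul_assoc, Matrix.nonsing_inv_mul _ hu] using h2

theorem adj_swap (hs : s * s = 1) (hJ : Jᵀ = s • J) {A B : Matrix (Fin N) (Fin N) F}
    (h : Aᵀ * J = J * B) : Bᵀ * J = J * A := by
  have h1 := congrArg Matrix.transpose h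
  rw [transpose_mul, transpose_mul, transpose_transpose, hJ, Matrix.smul_mul, Matrix.mul_smul] at h1
  have h2 := congrArg (fun x => s • x) h1
  simp only [smul_smul, hs, one_smul] at h2
  exact h2.symm

/-- the involution on the idempotents -/
theorem exists_bar (hs : s * s = 1) (hJ : Jᵀ = s • J) (hdet : J.det ≠ 0)
    (hadj : ∀ A ∈ 𝒞, ∃ A' ∈ 𝒞, Aᵀ * J = J * A') {T : Type} [Fintype T]
    {E : T → Matrix (Fin N) (Fin N) F} (h0 : ∀ t, E t ∈ 𝒞) (h1 : ∀ t, E t * E t = E t)
    (h2 : ∀ t, E t ≠ 0) (h4 : ∑ t, E t = 1)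
    (h5 : ∀ A ∈ 𝒞, ∀ t : T, ∃ c : F, A * E t = c • E t) (t : T) :
    ∃ u, (E u)ᵀ * J = J * E t ∧ (E t)ᵀ * J = J * E u := by
  have hs0 : s ≠ 0 := by
    rintro rfl
    simp at hs
  obtain ⟨A', hA', hA⟩ := hadj _ (h0 t)
  have hA0 : A' ≠ 0 := by
    rintro rfl
    apply h2 t
    have h6 := adj_swap hs hJ hA
    rw [transpose_zero, Matrix.zero_mul] at h6
    exact J_cancel hdet (by rw [← h6, Matrix.mul_zero])
  obtain ⟨u, hu⟩ : ∃ u, A' * E u ≠ 0 := by
    by_contra hcon
    push Not at hcon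
    apply hA0
    rw [← Matrix.mul_one A', ← h4, Finset.mul_sum]
    exact Finset.sum_eq_zero fun u _ => hcon u
  obtain ⟨c, hc⟩ := h5 A' hA' u
  have hc0 : c ≠ 0 := by
    rintro rfl
    apply hu
    rw [hc, zero_smul]
  obtain ⟨B', hB', hB⟩ := hadj _ (h0 u)
  obtain ⟨c', hc'⟩ := h5 B' hB' t
  -- the key relation
  have e1 : (E t)ᵀ * J * E u = c • (J * E u) := by
    rw [hA, Matrix.mul_assoc, hc, Matrix.mul_smul]
  have e2 : (E u)ᵀ * J * E t = c' • (J * E t) := by
    rw [hB, Matrix.mul_assoc, hc', Matrix.mul_smul]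
  have e3 : (E u)ᵀ * J * E t = c • ((E u)ᵀ * J) := by
    have h6 := congrArg Matrix.transpose e1
    rw [transpose_mul, transpose_mul, transpose_transpose, transpose_smul, transpose_mul, hJ,
      Matrix.smul_mul, Matrix.mul_smul, Matrix.mul_smul, ← Matrix.mul_assoc, smul_comm c s] at h6
    have h7 := congrArg (fun x => s • x) h6
    simp only [smul_smul, hs, one_smul] at h7
    rw [h7]
    congr 1
    rw [← mul_assoc, hs, one_mul]
  have e4 : (E u)ᵀ * J = (c⁻¹ * c') • (J * E t) := by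
    have h6 : c • ((E u)ᵀ * J) = c' • (J * E t) := by rw [← e3, e2]
    have h7 := congrArg (fun x => c⁻¹ • x) h6
    simp only [smul_smul, inv_mul_cancel₀ hc0, one_smul] at h7
    exact h7
  set l := c⁻¹ * c' with hl
  have hJE : J * E t ≠ 0 := by
    intro h
    exact h2 t (J_cancel hdet (by rw [h, Matrix.mul_zero]))
  have e5 : (E u)ᵀ * ((E u)ᵀ * J) = (E u)ᵀ * J := by
    rw [← Matrix.mul_assoc, ← transpose_mul, h1]
  rw [e4, Matrix.mul_smul, ← Matrix.mul_assoc, e4, Matrix.smul_mul, Matrix.mul_assoc, h1,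
    smul_smul] at e5
  have e6 : l * l = l := by
    have h6 : (l * l - l) • (J * E t) = 0 := by rw [sub_smul, e5, sub_self]
    exact sub_eq_zero.1 ((smul_eq_zero.1 h6).resolve_right hJE)
  have hl0 : l ≠ 0 := by
    intro h
    rw [h, zero_smul] at e4
    have h6 := adj_swap hs hJ (A := E u) (B := 0) (by rw [e4, Matrix.mul_zero])
    rw [transpose_zero, Matrix.zero_mul] at h6
    exact h2 u (J_cancel hdet (by rw [← h6, Matrix.mul_zero]))
  have hl1 : l = 1 := by
    have := mul_right_cancel₀ hl0 (e6.trans (one_mul l).symm)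
    exact this
  rw [hl1, one_smul] at e4
  exact ⟨u, e4, adj_swap hs hJ e4⟩

theorem exists_frm [IsAlgClosed F] {n : ℕ} (hs : s * s = 1) (hJ : Jᵀ = s • J)
    (hdet : J.det ≠ 0)
    (hcomm : ∀ A ∈ 𝒞, ∀ B ∈ 𝒞, A * B = B * A)
    (hadj : ∀ A ∈ 𝒞, ∃ A' ∈ 𝒞, Aᵀ * J = J * A')
    (hinvt : ∃ A ∈ 𝒞, ∃ A' ∈ 𝒞, Aᵀ * J = J * A' ∧ (A - A').det ≠ 0)
    (hred : ∀ A ∈ 𝒞, IsNilpotent A → A = 0)
    (hrank : ∀ e ∈ 𝒞, e * e = e → e ≠ 0 → n ≤ e.rank) : Nonempty (Frm J 𝒞 n s) := by
  classical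
  obtain ⟨T, hT, E, h0, h1, h2, h3, h4, h5⟩ := idem 𝒞 hcomm hred
  have hs0 : s ≠ 0 := by
    rintro rfl
    simp at hs
  choose D hD hD' using exists_bar hs hJ hdet hadj h0 h1 h2 h4 h5
  have hEinj : ∀ a b, E a = E b → a = b := by
    intro a b hab
    by_contra hne
    have := h3 a b hne
    rw [hab, h1] at this
    exact h2 b this
  have hDD : ∀ t, D (D t) = t := by
    intro t
    apply hEinj
    apply J_cancel hdet
    rw [← hD' (D t), hD t]
  have hDne : ∀ t, D t ≠ t := by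
    intro t ht
    obtain ⟨A, hA, A', hA', hAA, hnd⟩ := hinvt
    obtain ⟨c, hc⟩ := h5 A hA t
    obtain ⟨c', hc'⟩ := h5 A' hA' t
    have e0 : (E t)ᵀ * J = J * E t := by
      have := hD t
      rwa [ht] at this
    have e1 : (A * E t)ᵀ * J = c • (J * E t) := by
      rw [hc, transpose_smul, Matrix.smul_mul, e0]
    have e2 : (A * E t)ᵀ * J = c' • (J * E t) := by
      rw [hcomm A hA _ (h0 t), transpose_mul, Matrix.mul_assoc, e0, ← Matrix.mul_assoc, hAA,
        Matrix.mul_assoc, hc', Matrix.mul_smul]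
    have e3 : (A - A') * E t = 0 := by
      apply J_cancel hdet
      rw [Matrix.sub_mul, hc, hc', Matrix.mul_sub, Matrix.mul_smul, Matrix.mul_smul, ← e1, ← e2,
        sub_self, Matrix.mul_zero]
    apply h2 t
    have hu : IsUnit (A - A').det := isUnit_iff_ne_zero.2 hnd
    have e4 := congrArg (fun x => (A - A')⁻¹ * x) e3
    simpa [← Matrix.mul_assoc, Matrix.nonsing_inv_mul _ hu] using e4
  -- the order
  let ord : T → ℕ := fun t => (Fintype.equivFin T t).val
  have hordi : ∀ a b, ord a = ord b → a = b := fun a b h =>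
    (Fintype.equivFin T).injective (Fin.ext h)
  have hord : ∀ t, ord t < ord (D t) ∨ ord (D t) < ord t := by
    intro t
    rcases lt_trichotomy (ord t) (ord (D t)) with h | h | h
    · exact Or.inl h
    · exact absurd (hordi _ _ h).symm (hDne t)
    · exact Or.inr h
  -- bases of the ranges
  let W : T → Submodule F (Fin N → F) := fun t => LinearMap.range (E t).mulVecLin
  let q : ∀ t, Module.Basis (Fin (Module.finrank F (W t))) F (W t) := fun t => Module.finBasis F (W t)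
  have hW : ∀ t (x : W t), E t *ᵥ (x : Fin N → F) = x := by
    rintro t ⟨_, w, rfl⟩
    change E t *ᵥ (E t *ᵥ w) = E t *ᵥ w
    rw [mulVec_mulVec, h1]
  have hW' : ∀ t s (x : W t), t ≠ s → E s *ᵥ (x : Fin N → F) = 0 := by
    rintro t s ⟨_, w, rfl⟩ hts
    change E s *ᵥ (E t *ᵥ w) = 0
    rw [mulVec_mulVec, h3 _ _ (Ne.symm hts), zero_mulVec]
  let TP : Type := {t : T // ord t < ord (D t)}
  let SP : Type := Σ t : TP, Fin (Module.finrank F (W t.1))
  let b0 : SP → Fin N → F := fun x => (q x.1.1 x.2 : Fin N → F)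
  let pr : ∀ t, (Fin N → F) →ₗ[F] W t := fun t => (E t).mulVecLin.rangeRestrict
  have hpr : ∀ t (w : Fin N → F), ((pr t w : W t) : Fin N → F) = E t *ᵥ w := fun t w => rfl
  let lf : SP → (Fin N → F) →ₗ[F] F := fun x => ((q x.1.1).coord x.2).comp (pr x.1.1)
  have hlf : ∀ (x : SP) (w w' : Fin N → F), E x.1.1 *ᵥ w = E x.1.1 *ᵥ w' → lf x w = lf x w' := by
    intro x w w' h
    change (q x.1.1).coord x.2 (pr x.1.1 w) = (q x.1.1).coord x.2 (pr x.1.1 w')
    congr 1
    exact Subtype.ext h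
  have hu0 : IsUnit J.det := isUnit_iff_ne_zero.2 hdet
  have hex : ∀ x : SP, ∃ u : Fin N → F, ∀ w, bil J w u = lf x w := by
    intro x
    refine ⟨J⁻¹ *ᵥ (fun i => lf x (Pi.single i 1)), fun w => ?_⟩
    unfold bil
    rw [mulVec_mulVec, Matrix.mul_nonsing_inv _ hu0, one_mulVec]
    have h9 : w = ∑ i, w i • (Pi.single i 1 : Fin N → F) := by
      funext j
      simp [Finset.sum_apply, Pi.single_apply]
    conv_rhs => rw [h9, map_sum]
    unfold dotProduct
    refine Finset.sum_congr rfl fun i _ => ?_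
    rw [map_smul, smul_eq_mul]
  choose u hu using hex
  have hEb : ∀ t (x : SP), E t *ᵥ b0 x = if x.1.1 = t then b0 x else 0 := by
    intro t x
    split_ifs with h
    · rw [← h]; exact hW _ _
    · exact hW' _ _ _ h
  have hb : ∀ x y : SP, lf x (b0 y) = if x = y then 1 else 0 := by
    rintro ⟨⟨t, ht⟩, i⟩ ⟨⟨t', ht'⟩, i'⟩
    by_cases h : t' = t
    · subst h
      change (q t').coord i (pr t' (q t' i' : Fin N → F)) = _
      have e1 : pr t' (q t' i' : Fin N → F) = q t' i' := Subtype.ext (hW _ _)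
      rw [e1, Module.Basis.coord_apply, Module.Basis.repr_self, Finsupp.single_apply]
      by_cases h' : i' = i
      · subst h'; simp
      · rw [if_neg h', if_neg]
        intro h''
        apply h'
        exact (eq_of_heq (Sigma.mk.inj_iff.1 h'').2).symm
    · change (q t).coord i (pr t (q t' i' : Fin N → F)) = _
      have e1 : pr t (q t' i' : Fin N → F) = 0 :=
        Subtype.ext (hW' _ _ _ h)
      rw [e1, map_zero, if_neg]
      intro h''
      exact h (congrArg (fun z : SP => z.1.1) h'').symm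
  have hEu : ∀ t (x : SP), E t *ᵥ u x = if D x.1.1 = t then u x else 0 := by
    intro t x
    apply bil_nd hdet
    intro w
    rw [bil_adj (hD t), hu]
    split_ifs with h
    · rw [hu]
      apply hlf
      rw [mulVec_mulVec, ← h, hDD, h1]
    · have e1 : E x.1.1 *ᵥ (E (D t) *ᵥ w) = E x.1.1 *ᵥ (0 : Fin N → F) := by
        rw [mulVec_mulVec, h3, zero_mulVec, mulVec_zero]
        intro h6
        apply h
        rw [h6, hDD]
      rw [hlf x _ _ e1, map_zero]
      unfold bil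
      rw [mulVec_zero, dotProduct_zero]
  have hca : ∀ (t : TP) (v : Fin N → F),
      E t.1 *ᵥ v = ∑ i, lf ⟨t, i⟩ v • b0 ⟨t, i⟩ := by
    intro t v
    have e1 := (q t.1).sum_repr (pr t.1 v)
    have e2 := congrArg (fun x : W t.1 => (x : Fin N → F)) e1
    simp only [Submodule.coe_sum, Submodule.coe_smul, hpr] at e2
    rw [← e2]
    rfl
  have hcb : ∀ (t : TP) (v : Fin N → F),
      E (D t.1) *ᵥ v = ∑ i, bil J (b0 ⟨t, i⟩) v • u ⟨t, i⟩ := by
    intro t v
    apply bil_nd hdet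
    intro w
    rw [bil_adj (hD (D t.1)), hDD, hca t w, bil_sum_left, bil_sum]
    refine Finset.sum_congr rfl fun i _ => ?_
    rw [bil_smul_left, bil_smul, hu, mul_comm]
  have hDlt : ∀ x y : SP, D x.1.1 ≠ y.1.1 := by
    intro x y h
    have h6 := x.1.2
    have h7 := y.1.2
    rw [← h, hDD] at h7
    omega
  let β : SP × Bool → Fin N → F := fun x => if x.2 = true then b0 x.1 else u x.1
  have hsumT : ∀ G : T → Fin N → F, ∑ t, G t = ∑ t : TP, (G t.1 + G (D t.1)) := by
    intro G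
    rw [Finset.sum_add_distrib, ← Finset.sum_filter_add_sum_filter_not Finset.univ
      (fun t => ord t < ord (D t)) G]
    congr 1
    · exact Finset.sum_subtype _ (fun x => by simp) G
    · have e1 : ∑ t : TP, G (D t.1) = ∑ t ∈ Finset.univ.filter (fun t => ord t < ord (D t)), G (D t) :=
        (Finset.sum_subtype _ (fun x => by simp) (fun t => G (D t))).symm
      rw [e1]
      refine Finset.sum_bij (fun t _ => D t) ?_ ?_ ?_ ?_
      · intro t ht
        rw [Finset.mem_filter] at ht ⊢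
        refine ⟨Finset.mem_univ _, ?_⟩
        rw [hDD]
        rcases hord t with h | h
        · exact absurd h ht.2
        · exact h
      · intro t _ t' _ h
        rw [← hDD t, ← hDD t', h]
      · intro t ht
        rw [Finset.mem_filter] at ht
        refine ⟨D t, ?_, hDD t⟩
        rw [Finset.mem_filter, hDD]
        exact ⟨Finset.mem_univ _, not_lt.2 ht.2.le⟩
      · intro t _
        rw [hDD]
  refine ⟨⟨T, hT, Classical.decEq T, E, h0, h5, D, hD, SP × Bool, inferInstance, inferInstance,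
    fun x => if x.2 = true then x.1.1.1 else D x.1.1.1, fun x => (x.1, !x.2),
    fun x => if x.2 = true then 1 else s, fun x => by simp, ?_, ?_, ?_, ?_, β, ?_,
    fun x v => if x.2 = true then lf x.1 v else bil J (b0 x.1) v, ?_, ?_, ?_⟩⟩
  · rintro ⟨x, _ | _⟩
    · simpa using (hDne x.1.1).symm
    · simpa using hDne x.1.1
  · rintro ⟨x, _ | _⟩
    · simp [hDD]
    · simp
  · rintro ⟨x, _ | _⟩
    · simpa using hs0
    · simp
  · rintro ⟨x, _ | _⟩
    · simp [hs]
    · simp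
  · rintro t ⟨x, _ | _⟩
    · simpa [β] using hEu t x
    · simpa [β] using hEb t x
  · intro v
    rw [Fintype.sum_prod_type]
    simp only [Fintype.sum_bool, if_true, β]
    have e1 : v = ∑ t, E t *ᵥ v := by rw [← Matrix.sum_mulVec, h4, one_mulVec]
    conv_lhs => rw [e1, hsumT]
    rw [Fintype.sum_sigma]
    refine Finset.sum_congr rfl fun t _ => ?_
    rw [Finset.sum_add_distrib, hca t v, hcb t v]
    simp
  · rintro ⟨x, _ | _⟩ ⟨y, _ | _⟩
    · have e1 : bil J (u x) (u y) = 0 := by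
        rw [hu]
        have e2 : E y.1.1 *ᵥ (u x) = E y.1.1 *ᵥ (0 : Fin N → F) := by
          rw [hEu, if_neg (hDlt x y), mulVec_zero]
        rw [hlf y _ _ e2, map_zero]
      simpa [β] using e1
    · have e1 : bil J (u x) (b0 y) = if y = x then s else 0 := by
        rw [bil_s hJ, hu, hb]
        by_cases h : x = y
        · rw [if_pos h, if_pos h.symm, mul_one]
        · rw [if_neg h, if_neg (Ne.symm h), mul_zero]
      simpa [β] using e1
    · have e1 : bil J (b0 x) (u y) = if y = x then 1 else 0 := by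
        rw [hu, hb]
      simpa [β] using e1
    · have e1 : bil J (b0 x) (b0 y) = 0 := by
        have e2 : b0 x = E x.1.1 *ᵥ b0 x := by rw [hEb, if_pos rfl]
        have e3 := bil_adj (hD (D x.1.1)) (b0 x) (b0 y)
        rw [hDD] at e3
        rw [e2, ← e3, hEb, if_neg (fun h => hDlt x y h.symm)]
        unfold bil
        rw [mulVec_zero, dotProduct_zero]
      simpa [β] using e1
  · intro t
    rcases hord t with h | h
    · have e1 : (Finset.univ.image (fun j : Fin (Module.finrank F (W t)) =>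
          (((⟨⟨t, h⟩, j⟩ : SP), true) : SP × Bool))) ⊆
          blk (fun x : SP × Bool => if x.2 = true then x.1.1.1 else D x.1.1.1) t := by
        intro x hx
        rw [Finset.mem_image] at hx
        obtain ⟨j, _, rfl⟩ := hx
        rw [mem_blk]
        simp
      have e2 := Finset.card_le_card e1
      rw [Finset.card_image_of_injective _ (by
        intro a b hab
        have hab' := congrArg (fun z : SP × Bool => z.1) hab
        exact eq_of_heq (Sigma.mk.inj_iff.1 hab').2), Finset.card_univ, Fintype.card_fin] at e2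
      have e3 := hrank _ (h0 t) (h1 t) (h2 t)
      have e4 : (E t).rank = Module.finrank F (W t) := rfl
      rw [e4] at e3
      convert e3.trans e2
    · have h' : ord (D t) < ord (D (D t)) := by rw [hDD]; exact h
      have e1 : (Finset.univ.image (fun j : Fin (Module.finrank F (W (D t))) =>
          (((⟨⟨D t, h'⟩, j⟩ : SP), false) : SP × Bool))) ⊆
          blk (fun x : SP × Bool => if x.2 = true then x.1.1.1 else D x.1.1.1) t := by
        intro x hx
        rw [Finset.mem_image] at hx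
        obtain ⟨j, _, rfl⟩ := hx
        rw [mem_blk]
        simp [hDD]
      have e2 := Finset.card_le_card e1
      rw [Finset.card_image_of_injective _ (by
        intro a b hab
        have hab' := congrArg (fun z : SP × Bool => z.1) hab
        exact eq_of_heq (Sigma.mk.inj_iff.1 hab').2), Finset.card_univ, Fintype.card_fin] at e2
      have e3 := hrank _ (h0 (D t)) (h1 (D t)) (h2 (D t))
      have e4 : (E (D t)).rank = Module.finrank F (W (D t)) := rfl
      rw [e4] at e3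
      convert e3.trans e2

end ex

section inv

variable {F : Type} [Field F] {N n k : ℕ} {J : Matrix (Fin N) (Fin N) F}
    {𝒞 : Subalgebra F (Matrix (Fin N) (Fin N) F)} {s : F}

variable (Φ : Frm J 𝒞 n s)

theorem Frm.act {A : Matrix (Fin N) (Fin N) F} {a : Φ.T → F}
    (h : ∀ t, A * Φ.E t = a t • Φ.E t) (x : Φ.S) :
    A *ᵥ Φ.β x = a (Φ.κ x) • Φ.β x := by
  have h1 : Φ.E (Φ.κ x) *ᵥ Φ.β x = Φ.β x := by rw [Φ.Eβ, if_pos rfl]
  calc A *ᵥ Φ.β x = A *ᵥ (Φ.E (Φ.κ x) *ᵥ Φ.β x) := by rw [h1]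
    _ = a (Φ.κ x) • Φ.β x := by rw [mulVec_mulVec, h, smul_mulVec, h1]

theorem Frm.sw_mem (hs : s * s = 1) (hJ : Jᵀ = s • J)
    (hadj : ∀ A ∈ 𝒞, ∃ A' ∈ 𝒞, Aᵀ * J = J * A') (b c : Φ.S) (hbc : Φ.κ b = Φ.κ c)
    (hne : b ≠ c) :
    SULie J 𝒞 (sw s J (Φ.β b) (Φ.β (Φ.iv c))) := by
  have key : ∀ A ∈ 𝒞, ∃ a a' : Φ.T → F, (∀ x, A *ᵥ Φ.β x = a (Φ.κ x) • Φ.β x) ∧
      (∀ x, (Φ.β x ᵥ* J) ᵥ* A = a' (Φ.κ x) • (Φ.β x ᵥ* J)) ∧
      ∀ x, a' (Φ.κ x) = a (Φ.κ (Φ.iv x)) := by
    intro A hA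
    obtain ⟨A', hA', hAA⟩ := hadj A hA
    have hAA' := adj_swap hs hJ hAA
    choose a ha using Φ.eig A hA
    choose a' ha' using Φ.eig A' hA'
    refine ⟨a, a', Φ.act ha, fun x => ?_, fun x => ?_⟩
    · rw [vecMul_vecMul, ← hAA', ← vecMul_vecMul, vecMul_transpose, Φ.act ha', smul_vecMul]
    · have h1 := bil_adj hAA' (Φ.β x) (Φ.β (Φ.iv x))
      rw [Φ.act ha, Φ.act ha', bil_smul, bil_smul_left, Φ.pair, if_pos rfl] at h1
      exact (mul_right_cancel₀ (Φ.jne x) h1).symm
  refine ⟨fun A hA => ?_, sw_lie hs hJ _ _, fun A hA => ?_⟩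
  · obtain ⟨a, a', h1, h2, h3⟩ := key A hA
    have h4 : a' (Φ.κ b) = a (Φ.κ (Φ.iv c)) := by rw [hbc, h3]
    have h5 : a' (Φ.κ (Φ.iv c)) = a (Φ.κ b) := by rw [h3, Φ.ii, hbc]
    unfold sw
    rw [Matrix.sub_mul, Matrix.mul_sub, Matrix.smul_mul, Matrix.mul_smul, Matrix.vecMulVec_mul,
      Matrix.vecMulVec_mul, Matrix.mul_vecMulVec, Matrix.mul_vecMulVec, h1, h1, h2, h2,
      h4, h5, vecMulVec_smul, vecMulVec_smul, smul_vecMulVec, smul_vecMulVec]
  · obtain ⟨a, a', h1, h2, h3⟩ := key A hA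
    have e1 : bil J (Φ.β b) (Φ.β (Φ.iv c)) = 0 := by
      rw [Φ.pair, if_neg]
      intro h
      apply hne
      rw [← Φ.ii b, ← h, Φ.ii]
    have e2 : bil J (Φ.β (Φ.iv c)) (Φ.β b) = 0 := by
      rw [bil_s hJ, e1, mul_zero]
    unfold sw
    rw [Matrix.sub_mul, Matrix.smul_mul, Matrix.vecMulVec_mul, Matrix.vecMulVec_mul, h2, h2,
      Matrix.trace_sub, Matrix.trace_smul, Matrix.trace_vecMulVec, Matrix.trace_vecMulVec]
    unfold bil at e1 e2
    rw [dotProduct_smul, dotProduct_smul, dotProduct_comm, ← dotProduct_mulVec, e1,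
      dotProduct_comm, ← dotProduct_mulVec, e2]
    simp

theorem Frm.sw_beta (hs : s * s = 1) (b c y : Φ.S) :
    sw s J (Φ.β b) (Φ.β (Φ.iv c)) *ᵥ Φ.β y =
      (if y = Φ.iv b then Φ.jj b else 0) • Φ.β (Φ.iv c) -
        (if y = c then Φ.jj c else 0) • Φ.β b := by
  rw [sw_mulVec, Φ.pair, Φ.pair, Φ.ii, Φ.jsym]
  congr 2
  split_ifs
  · rw [← mul_assoc, hs, one_mul]
  · rw [mul_zero]

theorem Frm.br_zero (hs : s * s = 1) (hJ : Jᵀ = s • J)
    (hadj : ∀ A ∈ 𝒞, ∃ A' ∈ 𝒞, Aᵀ * J = J * A')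
    (φ : MultilinearMap F (fun _ : Fin k => Fin N → F) F)
    (hφ : ∀ X, SULie J 𝒞 X → ∀ v : Fin k → Fin N → F,
      ∑ j, φ (Function.update v j (X *ᵥ v j)) = 0)
    (b c : Φ.S) (hbc : Φ.κ b = Φ.κ c) (hne : b ≠ c) (I : Fin k → Φ.S) :
    ∑ j, ((if I j = Φ.iv b then Φ.jj b else 0) *
        φ (fun i => Φ.β (Function.update I j (Φ.iv c) i)) -
      (if I j = c then Φ.jj c else 0) * φ (fun i => Φ.β (Function.update I j b i))) = 0 := by
  classical
  refine Eq.trans ?_ (hφ _ (Φ.sw_mem hs hJ hadj b c hbc hne) (fun j => Φ.β (I j)))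
  refine Finset.sum_congr rfl fun j _ => ?_
  rw [Φ.sw_beta hs, MultilinearMap.map_update_sub, MultilinearMap.map_update_smul,
    MultilinearMap.map_update_smul]
  have h2 : ∀ x : Φ.S, Function.update (fun j => Φ.β (I j)) j (Φ.β x) =
      fun i => Φ.β (Function.update I j x i) := by
    intro x
    exact (Function.comp_update (fun y => Φ.β y) I j x).symm
  rw [h2, h2, smul_eq_mul, smul_eq_mul]

theorem Frm.ext_ml (φ ψ : MultilinearMap F (fun _ : Fin k => Fin N → F) F)
    (h : ∀ I : Fin k → Φ.S, φ (fun j => Φ.β (I j)) = ψ (fun j => Φ.β (I j))) : φ = ψ := by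
  classical
  have key : ∀ (χ : MultilinearMap F (fun _ : Fin k => Fin N → F) F) (v : Fin k → Fin N → F),
      χ v = ∑ I : Fin k → Φ.S, (∏ j, Φ.co (I j) (v j)) • χ (fun j => Φ.β (I j)) := by
    intro χ v
    have e1 : v = fun j => ∑ y : Φ.S, Φ.co y (v j) • Φ.β y := by
      funext j
      exact Φ.full (v j)
    conv_lhs => rw [e1]
    rw [MultilinearMap.map_sum]
    refine Finset.sum_congr rfl fun I _ => ?_
    rw [MultilinearMap.map_smul_univ]
  refine MultilinearMap.ext fun v => ?_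
  rw [key φ, key ψ]
  exact Finset.sum_congr rfl fun I _ => by rw [h]

theorem Frm.typ_inv (hs : s * s = 1) (hJ : Jᵀ = s • J)
    (hadj : ∀ A ∈ 𝒞, ∃ A' ∈ 𝒞, Aᵀ * J = J * A')
    (φ : MultilinearMap F (fun _ : Fin k => Fin N → F) F)
    (hφ : ∀ X, SULie J 𝒞 X → ∀ v : Fin k → Fin N → F,
      ∑ j, φ (Function.update v j (X *ᵥ v j)) = 0) (τ : Fin k → Φ.T) :
    InvU Φ.κ Φ.iv Φ.jj (typ Φ.κ τ (fun I => φ (fun j => Φ.β (I j)))) := by
  classical
  intro b c hbc hne I
  have hty : ∀ (j : Fin k) (y : Φ.S), Φ.κ y = Φ.κ (I j) →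
      ((∀ l, Φ.κ (Function.update I j y l) = τ l) ↔ ∀ l, Φ.κ (I l) = τ l) := by
    intro j y hy
    refine forall_congr' fun l => ?_
    by_cases h : l = j
    · subst h
      rw [Function.update_self, hy]
    · rw [Function.update_of_ne h]
  have e1 := Φ.br_zero hs hJ hadj φ hφ b c hbc hne I
  have hkiv : Φ.κ (Φ.iv c) = Φ.κ (Φ.iv b) := by rw [Φ.kiv, Φ.kiv, hbc]
  have e2 : ∀ j, ((if I j = c then
        Φ.jj c * typ Φ.κ τ (fun I => φ (fun j => Φ.β (I j))) (Function.update I j b) else 0) -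
      (if I j = Φ.iv b then
        Φ.jj b * typ Φ.κ τ (fun I => φ (fun j => Φ.β (I j))) (Function.update I j (Φ.iv c))
          else 0)) =
      -(if ∀ l, Φ.κ (I l) = τ l then 1 else 0) *
        ((if I j = Φ.iv b then Φ.jj b else 0) *
        φ (fun i => Φ.β (Function.update I j (Φ.iv c) i)) -
      (if I j = c then Φ.jj c else 0) * φ (fun i => Φ.β (Function.update I j b i))) := by
    intro j
    have e3 : (if I j = c then
        Φ.jj c * typ Φ.κ τ (fun I => φ (fun j => Φ.β (I j))) (Function.update I j b) else 0) =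
        (if ∀ l, Φ.κ (I l) = τ l then 1 else 0) *
          ((if I j = c then Φ.jj c else 0) * φ (fun i => Φ.β (Function.update I j b i))) := by
      by_cases h : I j = c
      · rw [if_pos h, if_pos h]
        unfold typ
        have h3 := hty j b (by rw [h, hbc])
        by_cases h4 : ∀ l, Φ.κ (I l) = τ l
        · rw [if_pos (h3.2 h4), if_pos h4, one_mul]
        · rw [if_neg (fun h5 => h4 (h3.1 h5)), if_neg h4, mul_zero, zero_mul]
      · rw [if_neg h, if_neg h, zero_mul, mul_zero]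
    have e4 : (if I j = Φ.iv b then
        Φ.jj b * typ Φ.κ τ (fun I => φ (fun j => Φ.β (I j))) (Function.update I j (Φ.iv c))
          else 0) =
        (if ∀ l, Φ.κ (I l) = τ l then 1 else 0) *
          ((if I j = Φ.iv b then Φ.jj b else 0) *
            φ (fun i => Φ.β (Function.update I j (Φ.iv c) i))) := by
      by_cases h : I j = Φ.iv b
      · rw [if_pos h, if_pos h]
        unfold typ
        have h3 := hty j (Φ.iv c) (by rw [h, hkiv])
        by_cases h4 : ∀ l, Φ.κ (I l) = τ l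
        · rw [if_pos (h3.2 h4), if_pos h4, one_mul]
        · rw [if_neg (fun h5 => h4 (h3.1 h5)), if_neg h4, mul_zero, zero_mul]
      · rw [if_neg h, if_neg h, zero_mul, mul_zero]
    rw [e3, e4]
    ring
  rw [Finset.sum_congr rfl fun j _ => e2 j, ← Finset.mul_sum, e1, mul_zero]

/-- the multilinear form of a matching with types -/
noncomputable def TT {m : ℕ} (e : Fin m × Fin 2 ≃ Fin k) (c : Fin k → Φ.T) :
    MultilinearMap F (fun _ : Fin k => Fin N → F) F :=
  (Tσ (Matrix.toBilin' J) (mate e) (mate_mate e) (mate_ne e)).compLinearMap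
    (fun j => (Φ.E (c j)).mulVecLin)

theorem TT_apply {m : ℕ} (e : Fin m × Fin 2 ≃ Fin k) (c : Fin k → Φ.T)
    (v : Fin k → Fin N → F) : TT Φ e c v =
      ∏ j with j < mate e j, bil J (Φ.E (c j) *ᵥ v j) (Φ.E (c (mate e j)) *ᵥ v (mate e j)) := by
  unfold TT
  rw [MultilinearMap.compLinearMap_apply, Tσ_apply]
  refine Finset.prod_congr rfl fun j _ => ?_
  rw [bil_toBilin]
  rfl

theorem TT_gen (hJ : Jᵀ = s • J) {m : ℕ} (e : Fin m × Fin 2 ≃ Fin k)
    (c : Fin k → Φ.T) (w : F) :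
    ∃ s' : F, ∀ I : Fin k → Φ.S,
      gen Φ.κ (QU Φ.iv Φ.jj) c e w I = s' * TT Φ e c (fun j => Φ.β (I j)) := by
  classical
  obtain ⟨s', hs'⟩ := prod_pairs e (fun a b : Fin N → F => bil J a b) s (bil_s hJ)
  refine ⟨w * s', fun I => ?_⟩
  rw [TT_apply, mul_assoc, ← hs' (fun j => Φ.E (c j) *ᵥ Φ.β (I j))]
  unfold gen
  by_cases h : ∀ j, Φ.κ (I j) = c j
  · rw [if_pos h, smul_eq_mul, mul_comm]
    congr 1
    refine Finset.prod_congr rfl fun l _ => ?_
    rw [Φ.Eβ, Φ.Eβ, if_pos (h _), if_pos (h _), Φ.pair]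
    rfl
  · rw [if_neg h]
    push Not at h
    obtain ⟨j, hj⟩ := h
    have h0 : Φ.E (c j) *ᵥ Φ.β (I j) = 0 := by rw [Φ.Eβ, if_neg hj]
    obtain ⟨⟨l, i⟩, rfl⟩ := e.surjective j
    have hz : bil J (Φ.E (c (e (l, 0))) *ᵥ Φ.β (I (e (l, 0))))
        (Φ.E (c (e (l, 1))) *ᵥ Φ.β (I (e (l, 1)))) = 0 := by
      have hi : i = 0 ∨ i = 1 := by fin_cases i <;> simp
      rcases hi with rfl | rfl
      · rw [h0]
        unfold bil
        rw [zero_dotProduct]
      · rw [h0]
        unfold bil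
        rw [mulVec_zero, dotProduct_zero]
    rw [Finset.prod_eq_zero (Finset.mem_univ l) hz, mul_zero]

theorem TT_from {m : ℕ} (e : Fin m × Fin 2 ≃ Fin k)
    (c : Fin k → Φ.T) : (fun v => TT Φ e c v) ∈ FromHerm J 𝒞 k := by
  refine Submodule.subset_span ⟨Function.Involutive.toPerm (mate e) (mate_mate e),
    fun j => Φ.E (Φ.D (c (mate e j))) * Φ.E (c j),
    mate_mate e, mate_ne e, fun j => 𝒞.mul_mem (Φ.mem _) (Φ.mem _), fun v => ?_⟩
  change TT Φ e c v = _
  rw [TT_apply]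
  refine Finset.prod_congr rfl fun j _ => ?_
  change _ = ((Φ.E (Φ.D (c (mate e j))) * Φ.E (c j)) *ᵥ v j) ⬝ᵥ J *ᵥ v (mate e j)
  rw [bil_adj (Φ.adj (c (mate e j))), mulVec_mulVec]
  rfl

include Φ in
/-- the theorem for a frame -/
theorem main1 [CharZero F] (hs : s * s = 1) (hJ : Jᵀ = s • J)
    (hadj : ∀ A ∈ 𝒞, ∃ A' ∈ 𝒞, Aᵀ * J = J * A') (hk : k < n)
    (φ : MultilinearMap F (fun _ : Fin k => Fin N → F) F)
    (hφ : ∀ X, SULie J 𝒞 X → ∀ v : Fin k → Fin N → F,
      ∑ j, φ (Function.update v j (X *ᵥ v j)) = 0) :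
    (fun v => φ v) ∈ FromHerm J 𝒞 k := by
  classical
  let evq : MultilinearMap F (fun _ : Fin k => Fin N → F) F →ₗ[F]
      ((Fin k → Φ.S) → F) :=
    { toFun := fun T I => T (fun j => Φ.β (I j))
      map_add' := fun _ _ => rfl
      map_smul' := fun _ _ => rfl }
  have hinj : Function.Injective evq := fun T T' h => Φ.ext_ml T T' fun I => congrFun h I
  let eve : MultilinearMap F (fun _ : Fin k => Fin N → F) F →ₗ[F] ((Fin k → Fin N → F) → F) :=
    { toFun := fun T v => T v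
      map_add' := fun _ _ => rfl
      map_smul' := fun _ _ => rfl }
  let GG : Set (MultilinearMap F (fun _ : Fin k => Fin N → F) F) :=
    {T | ∃ (m : ℕ) (e : Fin m × Fin 2 ≃ Fin k) (c : Fin k → Φ.T), T = TT Φ e c}
  have h2 : evq φ ∈ (Submodule.span F GG).map evq := by
    have e0 : evq φ = fun I : Fin k → Φ.S => φ (fun j => Φ.β (I j)) := rfl
    rw [e0, ← sum_typ Φ.κ (fun I : Fin k → Φ.S => φ (fun j => Φ.β (I j)))]
    refine Submodule.sum_mem _ fun τ _ => ?_
    have hkey := core (κ := Φ.κ) (inv := Φ.iv) (jj := Φ.jj) Φ.ii Φ.kne Φ.jne n Φ.many k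
      (Fin k) τ (typ Φ.κ τ (fun I => φ (fun j => Φ.β (I j)))) (Fintype.card_fin k) hk
      (fun I hI => if_neg hI) (Φ.typ_inv hs hJ hadj φ hφ τ)
    have hle : Gen (M := F) Φ.κ (QU Φ.iv Φ.jj) τ ≤ (Submodule.span F GG).map evq := by
      unfold Gen
      rw [Submodule.span_le]
      rintro _ ⟨m, e, w, rfl⟩
      obtain ⟨s', hs'⟩ := TT_gen Φ hJ e τ w
      refine ⟨s' • TT Φ e τ, Submodule.smul_mem _ _ (Submodule.subset_span ⟨m, e, τ, rfl⟩), ?_⟩
      funext I
      exact (hs' I).symm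
    exact hle hkey
  obtain ⟨T, hT, hT'⟩ := h2
  have h3 : φ ∈ Submodule.span F GG := by
    rw [← hinj hT']
    exact hT
  have h4 : eve φ ∈ (Submodule.span F GG).map eve := Submodule.mem_map_of_mem h3
  rw [Submodule.map_span] at h4
  refine Submodule.span_le.2 ?_ h4
  rintro _ ⟨_, ⟨m, e, c, rfl⟩, rfl⟩
  exact TT_from Φ e c

/-- task FFTU -/
theorem t : S_FFTU := by
  classical
  intro F _ _ _ N n J 𝒞 hH hred hrank k φ hk hφ
  obtain ⟨hsym, hdet, hcomm, hadj, hinvt⟩ := hH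
  obtain ⟨s, hs, hJ⟩ : ∃ s : F, s * s = 1 ∧ Jᵀ = s • J := by
    rcases hsym with h | h
    · exact ⟨1, by norm_num, by rw [h, one_smul]⟩
    · exact ⟨-1, by norm_num, by rw [h, neg_smul, one_smul]⟩
  obtain ⟨Φ⟩ := exists_frm (n := n) hs hJ hdet hcomm hadj hinvt hred hrank
  exact main1 Φ hs hJ hadj hk φ hφ

end inv

end Pool.Agent.Q230.OI.FFTU
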